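import Mathlib
import Pool.Agent.H173R2.AntiDiamE
set_option autoImplicit false
open Finset

namespace Pool.Agent.Results.MP_f155e9_co.SmallK

/-- The conjectured bound for `k ≤ 2` (and for `k = 3` with `n` odd), for antichains in which any
two members `A, B` have `|A Δ B| ≤ n - k` or `min(|A \ B|, |B \ A|) ≤ ⌊(n - k)/2⌋`. -/
theorem result (n k : ℕ) (hk : 1 ≤ k) (hkn : k ≤ n) (hk2 : k ≤ 2 ∨ (k = 3 ∧ Odd n))
    (F : Finset (Finset (Fin n)))
    (hF : IsAntichain (· ⊆ ·) (F : Set (Finset (Fin n))))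
    (hd : ∀ A ∈ F, ∀ B ∈ F, (symmDiff A B).card ≤ n - k ∨
      min (A \ B).card (B \ A).card ≤ (n - k) / 2) :
    F.card ≤ n.choose ((n + k + 1) / 2) := by
  have hanti : ∀ A ∈ F, ∀ B ∈ F, A ⊆ B → A = B := by
    intro A hA B hB hAB
    by_contra hne
    exact hF (mem_coe.2 hA) (mem_coe.2 hB) hne hAB
  have hmd := Pool.Agent.H173R2.AntiDiam.md_of_min ((n - k) / 2) F
    (fun A hA B hB => Pool.Agent.H173R2.AntiDiam.min_of_diam k A B (hd A hA B hB))
  rw [Pool.Agent.H173R2.AntiDiam.choose_flip n k hkn]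
  have h1 : 2 * ((n - k) / 2) + 1 ≤ n := by omega
  have h2 : n ≤ 2 * ((n - k) / 2) + 3 := by
    rcases hk2 with h | ⟨h, h'⟩
    · omega
    · obtain ⟨m, hm⟩ := h'
      omega
  exact Pool.Agent.H173R2.AntiDiam.small_gap ((n - k) / 2) h1 h2 F hanti hmd

end Pool.Agent.Results.MP_f155e9_co.SmallK
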