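import Mathlib
import Pool.Agent.H173R2.AntiDiamE
set_option autoImplicit false
open Finset

namespace Pool.Agent.Results.MP_f155e9_co.TwoSizes

/-- The conjectured bound, for all `n` and `k ≥ 1`, when (with `r = ⌊(n - k)/2⌋`) the members
of size greater than `r` have at most two sizes, or the members of size less than `n - r` have at
most two sizes, or the members of size strictly between `r` and `n - r` have at most one size. -/
theorem result (n k : ℕ) (hk : 1 ≤ k) (hkn : k ≤ n)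
    (F : Finset (Finset (Fin n)))
    (hF : IsAntichain (· ⊆ ·) (F : Set (Finset (Fin n))))
    (hd : ∀ A ∈ F, ∀ B ∈ F, (symmDiff A B).card ≤ n - k ∨
      min (A \ B).card (B \ A).card ≤ (n - k) / 2)
    (hsz : (∃ a b : ℕ, ∀ A ∈ F, A.card ≤ (n - k) / 2 ∨ A.card = a ∨ A.card = b) ∨
      (∃ a b : ℕ, ∀ A ∈ F, n - (n - k) / 2 ≤ A.card ∨ A.card = a ∨ A.card = b) ∨
      (∃ s : ℕ, ∀ A ∈ F, A.card ≤ (n - k) / 2 ∨ A.card = s ∨ n - (n - k) / 2 ≤ A.card)) :
    F.card ≤ n.choose ((n + k + 1) / 2) := by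
  have hanti : ∀ A ∈ F, ∀ B ∈ F, A ⊆ B → A = B := by
    intro A hA B hB hAB
    by_contra hne
    exact hF (mem_coe.2 hA) (mem_coe.2 hB) hne hAB
  have hmd := Pool.Agent.H173R2.AntiDiam.md_of_min ((n - k) / 2) F
    (fun A hA B hB => Pool.Agent.H173R2.AntiDiam.min_of_diam k A B (hd A hA B hB))
  rw [Pool.Agent.H173R2.AntiDiam.choose_flip n k hkn]
  have h1 : 2 * ((n - k) / 2) + 1 ≤ n := by omega
  rcases hsz with ⟨a, b, h⟩ | ⟨a, b, h⟩ | ⟨s, h⟩
  · exact Pool.Agent.H173R2.AntiDiam.two_above ((n - k) / 2) a b h1 F hanti hmd h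
  · exact Pool.Agent.H173R2.AntiDiam.two_below ((n - k) / 2) a b h1 F hanti hmd h
  · exact Pool.Agent.H173R2.AntiDiam.one_middle ((n - k) / 2) s h1 F hanti hmd h

end Pool.Agent.Results.MP_f155e9_co.TwoSizes
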